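import Pool.Agent.Y716.C.Moment
import Pool.Agent.Y716.D.Count

set_option autoImplicit false

/-!
# The second moment, borderline systems
-/

namespace Pool.Agent.Y77.D

open Pool.Agent.Y716.Q Pool.Agent.Y716.C Pool.Agent.Y716.D

theorem c2_mono {ι : Type*} [Fintype ι] {e : ℕ} {A A' : ℝ} (h : A ≤ A') (u : (ι → ℤ) → ℤ)
    (p : (ι → ℤ) × (ι → ℤ)) : (c2 e A u p : ℝ) ≤ c2 e A' u p := by
  classical
  have h1 : c2 e A u p ≤ c2 e A' u p := by
    unfold c2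
    apply Finset.card_le_card
    intro f hf
    rw [Finset.mem_filter, mem_formsZ] at hf ⊢
    exact ⟨hf.1.mono h, hf.2⟩
  exact_mod_cast h1

theorem alg1 (c₃ x pi c₀ b q : ℝ) : c₃ * x / pi * (c₀ * b / q) = c₃ * c₀ * x * b / (pi * q) := by
  rw [div_mul_div_comm]
  congr 1
  ring

theorem alg2 (c₁ x pi c₀ b q : ℝ) : c₁ * x / pi * (c₀ * b / q) = c₁ * c₀ * x * (b / q) / pi := by
  ring

theorem alg3 (n cb q c₁ x pi t : ℝ) :
    n * (cb * q) * (c₁ * x / pi * t) = c₁ * cb * x * (t * (n * q)) / pi := by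
  ring

theorem fin_alg {c₀ c₁ c₂ c₃ x0 x1 x2 x3 y0 y1 y2 y3 g z : ℝ} (h0 : 0 ≤ c₀) (h1 : 0 ≤ c₁)
    (h2 : 0 ≤ c₂) (h3 : 0 ≤ c₃) (hx0 : 0 ≤ x0) (hx1 : 0 ≤ x1) (hx2 : 0 ≤ x2) (hx3 : 0 ≤ x3)
    (k0 : y0 ≤ c₀ * x0) (k1 : y1 ≤ c₁ * x1) (k2 : y2 ≤ c₂ * x2) (k3 : y3 ≤ c₃ * x3)
    (hg : g ≤ z) :
    y3 + (((g + y0) + y2) + y1) ≤ z + (c₀ + c₁ + c₂ + c₃) * x0 + ((c₀ + c₁ + c₂ + c₃) * x1 +
      (c₀ + c₁ + c₂ + c₃) * x2) + (c₀ + c₁ + c₂ + c₃) * x3 := by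
  have s0 := mul_le_mul_of_nonneg_right (by linarith : c₀ ≤ c₀ + c₁ + c₂ + c₃) hx0
  have s1 := mul_le_mul_of_nonneg_right (by linarith : c₁ ≤ c₀ + c₁ + c₂ + c₃) hx1
  have s2 := mul_le_mul_of_nonneg_right (by linarith : c₂ ≤ c₀ + c₁ + c₂ + c₃) hx2
  have s3 := mul_le_mul_of_nonneg_right (by linarith : c₃ ≤ c₀ + c₁ + c₂ + c₃) hx3
  linarith

/-- The second moment, borderline version. -/
theorem second_moment2 (ι : Type*) [Fintype ι] {s : ℕ} (hk0 : 0 < Fintype.card ι)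
    (htl : TailStmt ι s) (hbad : BadPairs ι) (hker : KernelGood ι) (e : Fin s → ℕ)
    (he : ∀ j, e j = 0) : ∃ Ct : ℝ, 0 < Ct ∧ SMS2 ι e Ct := by
  classical
  obtain ⟨C₀, hC₀, htail⟩ := htl
  obtain ⟨Cb, hCb, hbadc⟩ := hbad
  obtain ⟨k, hk⟩ : ∃ k, Fintype.card ι = k := ⟨_, rfl⟩
  rw [hk] at hk0
  have hkr : (0 : ℝ) < k := by exact_mod_cast hk0
  obtain ⟨c, hc⟩ : ∃ c : Fin s → ℝ, c = fun j => c1pt k (e j + 1) := ⟨_, rfl⟩
  have hcj : ∀ j, c1pt k (e j + 1) = c j := fun j => by rw [hc]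
  have hc0 : ∀ j, 0 < c j := by intro j; rw [← hcj]; unfold c1pt; positivity
  obtain ⟨c', hc'⟩ : ∃ c' : Fin s → ℝ, c' = fun j => cker k (e j) := ⟨_, rfl⟩
  have hc'j : ∀ j, cker k (e j) = c' j := fun j => by rw [hc']
  have hc'0 : ∀ j, 0 < c' j := by intro j; rw [← hc'j]; unfold cker c1pt; positivity
  obtain ⟨cG, hcG⟩ : ∃ cG : ℝ, cg k = cG := ⟨_, rfl⟩
  have hcG0 : 0 < cG := by rw [← hcG]; unfold cg; positivity
  obtain ⟨C₁, hC₁⟩ : ∃ C₁ : ℝ, C₁ = ∏ j, (4 * c j * c' j) := ⟨_, rfl⟩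
  obtain ⟨C₂, hC₂⟩ : ∃ C₂ : ℝ, C₂ = ∏ j, (2 * c j) := ⟨_, rfl⟩
  obtain ⟨C₃, hC₃⟩ : ∃ C₃ : ℝ, C₃ = ∏ j, (4 * c j * cG) := ⟨_, rfl⟩
  have hC₁0 : 0 < C₁ := by
    rw [hC₁]
    exact Finset.prod_pos (fun j _ => by have := hc0 j; have := hc'0 j; positivity)
  have hC₂0 : 0 < C₂ := by
    rw [hC₂]
    exact Finset.prod_pos (fun j _ => by have := hc0 j; positivity)
  have hC₃0 : 0 < C₃ := by
    rw [hC₃]
    exact Finset.prod_pos (fun j _ => by have := hc0 j; positivity)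
  refine ⟨C₃ * C₀ + C₁ * C₀ + C₁ * Cb + 2 * C₂, by positivity, ?_⟩
  intro w hw fc S J xc P ξ a ρ ρ' B a₀ A A₂ T T' Λ ε₁ E₁ m₁ r₁ Δ ha haB hT hTT hΛ hε₁ hε₁4 hεT hE₁
    haE hm₁ hr₁ hnum Lg hLg u hu N hTN K hKdef hΔ hΔK hA
    haA haA3 haA2 R₁ E R₂ hR₂ hE hL1 hL2 hED
  simp only [hk, hcj] at haA
  simp only [hk, hc'j] at haA2
  rw [hk, hcG] at haA3
  rw [hk]
  have hB : 1 ≤ B := ha.trans haB
  have hB0 : 0 < B := by linarith
  have hT0 : 0 < T := by linarith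
  have hT'0 : 0 < T' := by linarith
  have hAp : 0 < A := by
    refine lt_of_lt_of_le ?_ haA3
    positivity
  have hAΛ : A ≤ Λ * A := le_mul_of_one_le_left hAp.le hΛ
  have hK0 : 0 < K := by
    rw [hKdef]
    apply pow_pos
    apply Finset.prod_pos
    intro p hp
    exact (Finset.mem_filter.mp hp).2.pos
  set X' := testSetS B a₀ P ξ a ρ ρ' S J xc fc with hX'
  obtain ⟨F, hF⟩ : ∃ F : (ι → ℤ) × (ι → ℤ) → ℝ, F = fun p => ∏ j, (c2 (e j) A (u j) p : ℝ) :=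
    ⟨_, rfl⟩
  have hFp : ∀ p, ∏ j, (c2 (e j) A (u j) p : ℝ) = F p := fun p => by rw [hF]
  have hdata : ∀ p : (ι → ℤ) × (ι → ℤ), (∃ i j, mn p.1 p.2 i j ≠ 0) →
      ∃ (g : ℤ) (μ : ℝ), g ≠ 0 ∧ (∀ i j, g ∣ mn p.1 p.2 i j) ∧
      (∀ D, (∀ i j, D ∣ mn p.1 p.2 i j) → D ∣ g) ∧ 0 < μ ∧
      (∃ i j, μ ≤ |(mn p.1 p.2 i j : ℝ)|) ∧
      (∀ i j, |(mn p.1 p.2 i j : ℝ)| ≤ μ) ∧ |(g : ℝ)| ≤ μ := fun p hp => exists_gcd_data hp
  choose! gf μf hg0 hg1 hg2 hg3 hg4 hg5 hg6 using hdata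
  set Pr := (X' ×ˢ X').filter (fun p => ∀ i j, mn p.1 p.2 i j = 0) with hPr
  set Np := (X' ×ˢ X').filter (fun p => ¬ ∀ i j, mn p.1 p.2 i j = 0) with hNp
  set N1 := Np.filter (fun p => B ^ 2 * |(gf p : ℝ)| ≤ T' * μf p) with hN1
  set M2 := Np.filter (fun p => ¬ B ^ 2 * |(gf p : ℝ)| ≤ T' * μf p) with hM2
  set N2 := N1.filter (fun p => GoodP ε₁ p.1 p.2) with hN2
  set Bd := N1.filter (fun p => ¬ GoodP ε₁ p.1 p.2) with hBd
  set Gd := N2.filter (fun p => B ^ 2 * |(gf p : ℝ)| ≤ T * μf p) with hGd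
  set M1 := N2.filter (fun p => ¬ B ^ 2 * |(gf p : ℝ)| ≤ T * μf p) with hM1
  have hNp' : ∀ p ∈ Np, p.1 ∈ X' ∧ p.2 ∈ X' ∧ ∃ i j, mn p.1 p.2 i j ≠ 0 := by
    intro p hp
    rw [hNp, Finset.mem_filter, Finset.mem_product] at hp
    push Not at hp
    exact ⟨hp.1.1, hp.1.2, hp.2⟩
  have hμB : ∀ p ∈ Np, μf p ≤ 2 * B ^ 2 := by
    intro p hp
    obtain ⟨h1, h2, h3⟩ := hNp' p hp
    obtain ⟨i, j, hij⟩ := hg4 p h3
    refine hij.trans ?_
    obtain ⟨_, hx, _⟩ := mem_testSetS.mp h1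
    obtain ⟨_, hy, _⟩ := mem_testSetS.mp h2
    unfold mn
    push_cast
    refine (abs_sub _ _).trans ?_
    rw [abs_mul, abs_mul]
    have e1 : |(p.1 i : ℝ)| * |(p.2 j : ℝ)| ≤ B * B :=
      mul_le_mul (hx.1 i) (hy.1 j) (abs_nonneg _) hB0.le
    have e2 : |(p.1 j : ℝ)| * |(p.2 i : ℝ)| ≤ B * B :=
      mul_le_mul (hx.1 j) (hy.1 i) (abs_nonneg _) hB0.le
    linarith [sq B]
  have hsum : ∑ p ∈ X' ×ˢ X', ∏ j, (c2 (e j) A (u j) p : ℝ) = ∑ p ∈ Pr, F p +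
      (((∑ p ∈ Gd, F p + ∑ p ∈ M1, F p) + ∑ p ∈ Bd, F p) + ∑ p ∈ M2, F p) := by
    simp only [hFp]
    rw [← Finset.sum_filter_add_sum_filter_not (X' ×ˢ X') (fun p => ∀ i j, mn p.1 p.2 i j = 0)]
    congr 1
    rw [← Finset.sum_filter_add_sum_filter_not _ (fun p => B ^ 2 * |(gf p : ℝ)| ≤ T' * μf p)]
    congr 1
    rw [← Finset.sum_filter_add_sum_filter_not _ (fun p => GoodP ε₁ p.1 p.2)]
    congr 1
    rw [← Finset.sum_filter_add_sum_filter_not _ (fun p => B ^ 2 * |(gf p : ℝ)| ≤ T * μf p)]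
  -- proportional pairs
  have hPrb : ∑ p ∈ Pr, F p ≤
      2 * C₂ * (sysZ ι e (2 * A)).card * X'.card / (∏ j, (A * B ^ (e j + 2))) := by
    have h1 : ∀ p ∈ Pr, F p ≤
        C₂ * (sysZ ι e (2 * A)).card / (∏ j, (A * B ^ (e j + 2))) := by
      intro p hp
      rw [hPr, Finset.mem_filter, Finset.mem_product] at hp
      obtain ⟨hx1, hx2, hx3, hx4⟩ := mem_testSetS.mp hp.1.1
      rw [hC₂, card_sysZ, ← hFp p]
      push_cast
      rw [← Finset.prod_mul_distrib, ← Finset.prod_div_distrib]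
      apply Finset.prod_le_prod (fun j _ => Nat.cast_nonneg _)
      intro j _
      have key := cnt1_le (A := A) (e j + 1) hx4 hx2 hB ha (by rw [hk, hcj]; exact haA j) (u j p.1)
      rw [hk, hcj] at key
      have h2 : c2 (e j) A (u j) p ≤ ((formsZ ι (e j + 1 + 1) A).filter
          (fun f => MvPolynomial.eval p.1 f = u j p.1)).card := by
        unfold c2
        apply Finset.card_le_card
        intro f hf
        rw [Finset.mem_filter] at hf ⊢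
        exact ⟨hf.1, hf.2.1⟩
      rw [le_div_iff₀ (by positivity)]
      have h3 : (c2 (e j) A (u j) p : ℝ) ≤ (((formsZ ι (e j + 1 + 1) A).filter
          (fun f => MvPolynomial.eval p.1 f = u j p.1)).card : ℝ) := by exact_mod_cast h2
      exact (mul_le_mul_of_nonneg_right h3 (by positivity)).trans key
    have h4 : (Pr.card : ℝ) ≤ 2 * X'.card := by
      have hmaps : ∀ p ∈ Pr, p.1 ∈ X' := by
        intro p hp
        rw [hPr, Finset.mem_filter, Finset.mem_product] at hp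
        exact hp.1.1
      have h5 : Pr.card ≤ 2 * X'.card := by
        apply Finset.card_le_mul_card_image_of_maps_to hmaps 2
        intro x hx
        obtain ⟨hx1, hx2, hx3, hx4⟩ := mem_testSetS.mp hx
        have := prop_card hx3 hB0 hx2 ((Pr.filter (fun p => p.1 = x)).image (fun p => p.2)) ?_
        · rw [Finset.card_image_of_injOn] at this
          · exact this
          · intro p hp p' hp' heq
            have e1 := (Finset.mem_filter.mp (Finset.mem_coe.mp hp)).2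
            have e2 := (Finset.mem_filter.mp (Finset.mem_coe.mp hp')).2
            exact Prod.ext (e1.trans e2.symm) heq
        · intro y hy
          rw [Finset.mem_image] at hy
          obtain ⟨p, hp, rfl⟩ := hy
          rw [Finset.mem_filter, hPr, Finset.mem_filter, Finset.mem_product] at hp
          refine ⟨(mem_testSetS.mp hp.1.1.2).2.2.1, ?_⟩
          rw [← hp.2]
          exact hp.1.2
      exact_mod_cast h5
    refine (Finset.sum_le_sum h1).trans ?_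
    rw [Finset.sum_const, nsmul_eq_mul]
    have hprod : 0 ≤ ∏ j : Fin s, (A * B ^ (e j + 2)) :=
      Finset.prod_nonneg (fun j _ => by positivity)
    have h6 := mul_le_mul_of_nonneg_right h4
      (div_nonneg (mul_nonneg hC₂0.le (Nat.cast_nonneg _)) hprod :
        0 ≤ C₂ * (sysZ ι e (2 * A)).card / (∏ j, (A * B ^ (e j + 2))))
    refine h6.trans (le_of_eq ?_)
    ring
  -- kernel property of the good pairs
  have hN2p : ∀ p ∈ N2, p ∈ Np ∧ B ^ 2 * |(gf p : ℝ)| ≤ T' * μf p ∧ GoodP ε₁ p.1 p.2 := by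
    intro p hp
    rw [hN2, Finset.mem_filter, hN1, Finset.mem_filter] at hp
    exact ⟨hp.1.1, hp.1.2, hp.2⟩
  have hkp : ∀ p ∈ N2, ∀ μ : ℝ, 0 < μ → (∃ i j, μ ≤ |(mn p.1 p.2 i j : ℝ)|) →
      64 * ε₁ * B ^ 2 ≤ μ → ∀ g : ℤ, g ≠ 0 → (∀ i j, g ∣ mn p.1 p.2 i j) →
      (∀ D, (∀ i j, D ∣ mn p.1 p.2 i j) → D ∣ g) →
      ∀ j, KerP (e j) B μ (cg (Fintype.card ι)) (1 + r₁ * m₁) p.1 p.2 g := by
    intro p hp μ hμ0 hμ hμε g h1 h2 h3 j
    obtain ⟨hp1, hp2, hp3⟩ := hN2p p hp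
    obtain ⟨hq1, hq2, hq3⟩ := hNp' p hp1
    obtain ⟨hx1, hx2, hx3, hx4⟩ := mem_testSetS.mp hq1
    obtain ⟨hy1, hy2, hy3, hy4⟩ := mem_testSetS.mp hq2
    rw [he j]
    exact hker B ε₁ μ p.1 p.2 g m₁ r₁ hB hx2 hx3 hy2 hy3 h1 h2 h3 hμ0 hμ hε₁ hp3 hμε hm₁ hr₁ hnum
  have hg1' : ∀ p ∈ Np, 1 ≤ |(gf p : ℝ)| := by
    intro p hp
    have := Int.one_le_abs (hg0 p (hNp' p hp).2.2)
    exact_mod_cast this
  -- crude bound
  have hcrude : ∀ p ∈ Np, F p ≤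
        C₁ * (sysZ ι e (3 * (Λ * A))).card / (∏ j, (A ^ 2 * B ^ (2 * e j + 4))) *
          (B ^ 2 * |(gf p : ℝ)| / μf p) ^ s := by
    intro p hp
    obtain ⟨h1, h2, h3⟩ := hNp' p hp
    obtain ⟨hx1, hx2, hx3, hx4⟩ := mem_testSetS.mp h1
    obtain ⟨hy1, hy2, hy3, hy4⟩ := mem_testSetS.mp h2
    have hμ0 := hg3 p h3
    have hpow : (B ^ 2 * |(gf p : ℝ)| / μf p) ^ s =
        ∏ _j : Fin s, (B ^ 2 * |(gf p : ℝ)| / μf p) := by
      rw [Finset.prod_const, Finset.card_univ, Fintype.card_fin]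
    rw [hC₁, card_sysZ, ← hFp p, hpow]
    push_cast
    rw [← Finset.prod_mul_distrib, ← Finset.prod_div_distrib, ← Finset.prod_mul_distrib]
    apply Finset.prod_le_prod (fun j _ => Nat.cast_nonneg _)
    intro j _
    have key := cnt2_le (A := Λ * A) (e j) hx4 hx2 hx3 hy4 hy2 ha haB (hg0 p h3) (hg1 p h3)
      (hg2 p h3) hμ0 (hg4 p h3) hLg (by rw [hk, hcj]; exact (haA j).trans hAΛ)
      (by rw [hk, hc'j]; exact haA2 j) (u j p.1) (u j p.2)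
    rw [hk, hcj, hc'j] at key
    have hcm : (c2 (e j) A (u j) p : ℝ) ≤ c2 (e j) (Λ * A) (u j) p := c2_mono hAΛ (u j) p
    have key2 : (c2 (e j) A (u j) p : ℝ) * ((A * B ^ (e j + 2)) * (A * B ^ e j * μf p)) ≤
        4 * c j * c' j * |(gf p : ℝ)| * (formsZ ι (e j + 2) (3 * (Λ * A))).card := by
      refine le_trans ?_ key
      refine mul_le_mul hcm ?_ (by positivity) (Nat.cast_nonneg _)
      gcongr
    rw [← le_div_iff₀ (by positivity)] at key2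
    exact key2.trans (le_of_eq (tail_alg (e j) hAp.ne' hB0.ne' hμ0.ne'))
  have hprod1 : 0 < (∏ j : Fin s, (A ^ 2 * B ^ (2 * e j + 4))) :=
    Finset.prod_pos (fun j _ => by positivity)
  have hprod2 : 0 < ∏ j : Fin s, (A * B ^ (e j + 2)) :=
    Finset.prod_pos (fun j _ => by positivity)
  have hsT : 0 < Real.sqrt T := Real.sqrt_pos.mpr hT0
  have hsT' : 0 < Real.sqrt T' := Real.sqrt_pos.mpr hT'0
  -- pairs with large tau
  have hM2b : ∑ p ∈ M2, F p ≤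
      C₁ * C₀ * (sysZ ι e (3 * (Λ * A))).card * (B ^ (2 * k) / Real.sqrt T') /
        (∏ j, (A ^ 2 * B ^ (2 * e j + 4))) := by
    refine (Finset.sum_le_sum fun p hp => hcrude p (Finset.mem_filter.mp hp).1).trans ?_
    rw [← Finset.mul_sum]
    have h2 := htail B T' hB (hT.trans hTT) M2 (fun p => B ^ 2 * |(gf p : ℝ)| / μf p) (by
      intro p hp
      rw [hM2, Finset.mem_filter] at hp
      obtain ⟨h1, h2, h3⟩ := hNp' p hp.1
      obtain ⟨hx1, hx2, hx3, hx4⟩ := mem_testSetS.mp h1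
      obtain ⟨hy1, hy2, hy3, hy4⟩ := mem_testSetS.mp h2
      have hμ0 := hg3 p h3
      refine ⟨hx2.1, hy2.1, h3, ?_, gf p, μf p, hg1 p h3, hg5 p h3, ?_⟩
      · rw [lt_div_iff₀ hμ0]
        exact not_le.mp hp.2
      · rw [div_mul_cancel₀ _ hμ0.ne'])
    rw [hk] at h2
    have h3 := mul_le_mul_of_nonneg_left h2
      (div_nonneg (mul_nonneg hC₁0.le (Nat.cast_nonneg _)) hprod1.le :
        0 ≤ C₁ * ((sysZ ι e (3 * (Λ * A))).card : ℝ) /
        (∏ j, (A ^ 2 * B ^ (2 * e j + 4))))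
    refine h3.trans (le_of_eq ?_)
    exact alg2 _ _ _ _ _ _
  -- bad pairs
  obtain ⟨q, hq⟩ : ∃ q : ℝ, q = E₁ ^ (3 * (k - 1)) * a₀ ^ (k * (k - 1) - 1) := ⟨_, rfl⟩
  have hq0 : 0 ≤ q := by rw [hq]; positivity
  have hBdc : (Bd.card : ℝ) ≤ X'.card * (Cb * q) := by
    have hmaps : ∀ p ∈ Bd, p.1 ∈ X' := by
      intro p hp
      rw [hBd, Finset.mem_filter, hN1, Finset.mem_filter] at hp
      exact (hNp' p hp.1.1).1
    rw [Finset.card_eq_sum_card_fiberwise hmaps]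
    push_cast
    rw [← nsmul_eq_mul, ← Finset.sum_const]
    refine Finset.sum_le_sum fun x hx => ?_
    obtain ⟨hx1, hx2, hx3, hx4⟩ := mem_testSetS.mp hx
    have := hbadc B a₀ ε₁ E₁ x ha haB hε₁ hε₁4 hE₁ haE hx2 hx3 hx4
      ((Bd.filter (fun p => p.1 = x)).image (fun p => p.2)) ?_
    · rw [Finset.card_image_of_injOn, hk, ← hq] at this
      · exact this
      · intro p hp p' hp' heq
        have e1 := (Finset.mem_filter.mp (Finset.mem_coe.mp hp)).2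
        have e2 := (Finset.mem_filter.mp (Finset.mem_coe.mp hp')).2
        exact Prod.ext (e1.trans e2.symm) heq
    · intro y hy
      rw [Finset.mem_image] at hy
      obtain ⟨p, hp, rfl⟩ := hy
      rw [Finset.mem_filter, hBd, Finset.mem_filter, hN1, Finset.mem_filter] at hp
      obtain ⟨h1, h2, h3⟩ := hNp' p hp.1.1.1
      obtain ⟨hy1, hy2, hy3, hy4⟩ := mem_testSetS.mp h2
      rw [← hp.2]
      exact ⟨hy2, hy3, hy4, h3, hp.1.2⟩
  have hBdb : ∑ p ∈ Bd, F p ≤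
      C₁ * Cb * (sysZ ι e (3 * (Λ * A))).card * (T' ^ s * (X'.card * q)) /
        (∏ j, (A ^ 2 * B ^ (2 * e j + 4))) := by
    have h1 : ∀ p ∈ Bd, F p ≤
        C₁ * (sysZ ι e (3 * (Λ * A))).card / (∏ j, (A ^ 2 * B ^ (2 * e j + 4))) * T' ^ s := by
      intro p hp
      rw [hBd, Finset.mem_filter, hN1, Finset.mem_filter] at hp
      refine (hcrude p hp.1.1).trans ?_
      obtain ⟨_, _, h3⟩ := hNp' p hp.1.1
      have hμ0 := hg3 p h3
      refine mul_le_mul_of_nonneg_left ?_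
        (div_nonneg (mul_nonneg hC₁0.le (Nat.cast_nonneg _)) hprod1.le)
      refine pow_le_pow_left₀ (by positivity) ?_ _
      rw [div_le_iff₀ hμ0]
      exact hp.1.2
    refine (Finset.sum_le_sum h1).trans ?_
    rw [Finset.sum_const, nsmul_eq_mul]
    have h4 := mul_le_mul_of_nonneg_right hBdc
      (mul_nonneg (div_nonneg (mul_nonneg hC₁0.le (Nat.cast_nonneg _)) hprod1.le)
        (pow_nonneg hT'0.le s) : 0 ≤ C₁ * ((sysZ ι e (3 * (Λ * A))).card : ℝ) /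
          (∏ j, (A ^ 2 * B ^ (2 * e j + 4))) * T' ^ s)
    refine h4.trans (le_of_eq ?_)
    exact alg3 _ _ _ _ _ _ _
  -- middle pairs
  have hM1b : ∑ p ∈ M1, F p ≤
      C₃ * C₀ * (sysZ ι e (3 * A)).card * B ^ (2 * k) /
        ((∏ j, (A ^ 2 * B ^ (2 * e j + 4))) * Real.sqrt T) := by
    have h1 : ∀ p ∈ M1, F p ≤
        C₃ * (sysZ ι e (3 * A)).card / (∏ j, (A ^ 2 * B ^ (2 * e j + 4))) *
          (B ^ 2 * |(gf p : ℝ)| / μf p) ^ s := by
      intro p hp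
      rw [hM1, Finset.mem_filter] at hp
      obtain ⟨hr1, hr2, hr3⟩ := hN2p p hp.1
      obtain ⟨h1, h2, h3⟩ := hNp' p hr1
      obtain ⟨hx1, hx2, hx3, hx4⟩ := mem_testSetS.mp h1
      obtain ⟨hy1, hy2, hy3, hy4⟩ := mem_testSetS.mp h2
      have hμ0 := hg3 p h3
      have hpow : (B ^ 2 * |(gf p : ℝ)| / μf p) ^ s =
          ∏ _j : Fin s, (B ^ 2 * |(gf p : ℝ)| / μf p) := by
        rw [Finset.prod_const, Finset.card_univ, Fintype.card_fin]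
      have hμε : 64 * ε₁ * B ^ 2 ≤ μf p := by
        have i1 : B ^ 2 ≤ T' * μf p := by
          refine le_trans ?_ hr2
          exact le_mul_of_one_le_right (by positivity) (hg1' p hr1)
        have i2 := mul_le_mul_of_nonneg_left i1 (by positivity : 0 ≤ 64 * ε₁)
        have i3 := mul_le_mul_of_nonneg_right hεT hμ0.le
        calc 64 * ε₁ * B ^ 2 ≤ 64 * ε₁ * (T' * μf p) := i2
          _ = 64 * ε₁ * T' * μf p := by ring
          _ ≤ 1 * μf p := i3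
          _ = μf p := one_mul _
      have hkk := hkp p hp.1 (μf p) hμ0 (hg4 p h3) hμε (gf p) (hg0 p h3) (hg1 p h3) (hg2 p h3)
      rw [hC₃, card_sysZ, ← hFp p, hpow]
      push_cast
      rw [← Finset.prod_mul_distrib, ← Finset.prod_div_distrib, ← Finset.prod_mul_distrib]
      apply Finset.prod_le_prod (fun j _ => Nat.cast_nonneg _)
      intro j _
      have key := cnt2_le_of (A := A) (e j) hx4 hx2 ha haB (hg0 p h3) hμ0
        (by rw [hk, hcG]; exact hcG0) (hkk j)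
        (by rw [hk, hcj]; exact haA j)
        (by rw [hk, hcG]; exact haA3) (u j p.1) (u j p.2)
      rw [hk, hcj, hcG] at key
      rw [← le_div_iff₀ (by positivity)] at key
      exact key.trans (le_of_eq (tail_alg (e j) hAp.ne' hB0.ne' hμ0.ne'))
    refine (Finset.sum_le_sum h1).trans ?_
    rw [← Finset.mul_sum]
    have h2 := htail B T hB hT M1 (fun p => B ^ 2 * |(gf p : ℝ)| / μf p) (by
      intro p hp
      rw [hM1, Finset.mem_filter] at hp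
      obtain ⟨hr1, hr2, hr3⟩ := hN2p p hp.1
      obtain ⟨h1, h2, h3⟩ := hNp' p hr1
      obtain ⟨hx1, hx2, hx3, hx4⟩ := mem_testSetS.mp h1
      obtain ⟨hy1, hy2, hy3, hy4⟩ := mem_testSetS.mp h2
      have hμ0 := hg3 p h3
      refine ⟨hx2.1, hy2.1, h3, ?_, gf p, μf p, hg1 p h3, hg5 p h3, ?_⟩
      · rw [lt_div_iff₀ hμ0]
        exact not_le.mp hp.2
      · rw [div_mul_cancel₀ _ hμ0.ne'])
    rw [hk] at h2
    have h3 := mul_le_mul_of_nonneg_left h2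
      (div_nonneg (mul_nonneg hC₃0.le (Nat.cast_nonneg _)) hprod1.le :
        0 ≤ C₃ * ((sysZ ι e (3 * A)).card : ℝ) /
        (∏ j, (A ^ 2 * B ^ (2 * e j + 4))))
    refine h3.trans (le_of_eq ?_)
    exact alg1 _ _ _ _ _ _
  -- good pairs
  have hGdb : ∑ p ∈ Gd, F p ≤ (sysZ ι e A).card * E * (1 + 1 / w) := by
    rw [hF]
    have hGdN : ∀ p ∈ Gd, p ∈ N2 ∧ B ^ 2 * |(gf p : ℝ)| ≤ T * μf p := by
      intro p hp
      rw [hGd, Finset.mem_filter] at hp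
      exact hp
    have hκ : ∀ p ∈ Gd, ∃ i j, 1 / T * B ^ 2 ≤ |(mn p.1 p.2 i j : ℝ)| := by
      intro p hp
      obtain ⟨hp1, hp2⟩ := hGdN p hp
      obtain ⟨hr1, hr2, hr3⟩ := hN2p p hp1
      obtain ⟨h1, h2, h3⟩ := hNp' p hr1
      obtain ⟨i, j, hij⟩ := hg4 p h3
      refine ⟨i, j, le_trans ?_ hij⟩
      rw [one_div, inv_mul_le_iff₀ hT0]
      refine le_trans ?_ hp2
      exact le_mul_of_one_le_right (by positivity) (hg1' p hr1)
    refine good_sum2 e hw ha haB (by positivity : 0 < 1 / T)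
      (by rw [hk, hcG]; exact hcG0 : 0 < cg (Fintype.card ι)) u hu hK0 hΔ hΔK hA hR₂ hE
      hL1 hL2 hED Gd ?_ ?_
    · intro p hp
      obtain ⟨hp1, hp2⟩ := hGdN p hp
      obtain ⟨hr1, hr2, hr3⟩ := hN2p p hp1
      obtain ⟨h1, h2, h3⟩ := hNp' p hr1
      refine ⟨h1, h2, ?_⟩
      have hgne := hg0 p h3
      have hgN : (gf p).natAbs ≤ N := by
        have h4 : |(gf p : ℝ)| ≤ 2 * T := by
          have h5 := hp2.trans (mul_le_mul_of_nonneg_left (hμB p hr1) hT0.le)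
          have h6 : B ^ 2 * |(gf p : ℝ)| ≤ B ^ 2 * (2 * T) := by linarith
          exact le_of_mul_le_mul_left h6 (by positivity)
        have h5 : (((gf p).natAbs : ℕ) : ℝ) ≤ (N : ℝ) := by
          rw [Nat.cast_natAbs, Int.cast_abs]
          exact h4.trans hTN
        exact_mod_cast h5
      have hgN2 : (gf p).natAbs ≤ 2 ^ N := hgN.trans (Nat.lt_two_pow_self).le
      obtain ⟨D, hD1, hD2, hD3, hD4⟩ := exists_coprime_part w N (Int.natAbs_ne_zero.mpr hgne) hgN2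
      refine ⟨D, gf p, hgne, hg1 p h3, hg2 p h3, hκ p hp, hD1, ?_, ?_, ?_, hD4⟩
      · exact (Nat.le_of_dvd (Int.natAbs_pos.mpr hgne) hD2).trans hgN
      · exact Int.natCast_dvd.mpr hD2
      · rw [← hKdef] at hD3
        have := Int.natAbs_dvd_natAbs (a := gf p) (b := ((K * D : ℕ) : ℤ))
        rw [Int.natAbs_natCast] at this
        have h7 := this.mp hD3
        push_cast at h7
        exact h7
    · intro p hp g i1 i2 i3
      refine hkp p (hGdN p hp).1 (1 / T * B ^ 2) (by positivity) (hκ p hp) ?_ g i1 i2 i3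
      refine mul_le_mul_of_nonneg_right ?_ (by positivity)
      rw [le_div_iff₀ hT0]
      have i4 : 64 * ε₁ * T ≤ 64 * ε₁ * T' := by gcongr
      linarith
  rw [hsum, ← hq]
  obtain ⟨Pi1, hPi1⟩ : ∃ Pi1 : ℝ, Pi1 = ∏ j : Fin s, (A ^ 2 * B ^ (2 * e j + 4)) := ⟨_, rfl⟩
  obtain ⟨Pi2, hPi2⟩ : ∃ Pi2 : ℝ, Pi2 = ∏ j : Fin s, (A * B ^ (e j + 2)) := ⟨_, rfl⟩
  rw [← hPi1] at hM1b hM2b hBdb hprod1 ⊢
  rw [← hPi2] at hPrb hprod2 ⊢
  obtain ⟨n3, hn3⟩ : ∃ n3 : ℝ, n3 = ((sysZ ι e (3 * A)).card : ℝ) := ⟨_, rfl⟩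
  obtain ⟨n2, hn2⟩ : ∃ n2 : ℝ, n2 = ((sysZ ι e (2 * A)).card : ℝ) := ⟨_, rfl⟩
  obtain ⟨nL, hnL⟩ : ∃ nL : ℝ, nL = ((sysZ ι e (3 * (Λ * A))).card : ℝ) := ⟨_, rfl⟩
  obtain ⟨nX, hnX⟩ : ∃ nX : ℝ, nX = (X'.card : ℝ) := ⟨_, rfl⟩
  have hn30 : 0 ≤ n3 := by rw [hn3]; exact Nat.cast_nonneg _
  have hn20 : 0 ≤ n2 := by rw [hn2]; exact Nat.cast_nonneg _
  have hnL0 : 0 ≤ nL := by rw [hnL]; exact Nat.cast_nonneg _
  have hnX0 : 0 ≤ nX := by rw [hnX]; exact Nat.cast_nonneg _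
  rw [← hn3] at hM1b ⊢
  rw [← hnL] at hM2b hBdb ⊢
  rw [← hn2] at hPrb ⊢
  rw [← hnX] at hPrb hBdb ⊢
  have hfin := fin_alg (x0 := n3 * B ^ (2 * k) / (Pi1 * Real.sqrt T))
    (x1 := nL * (B ^ (2 * k) / Real.sqrt T') / Pi1)
    (x2 := nL * (T' ^ s * (nX * q)) / Pi1) (x3 := n2 * nX / Pi2)
    (mul_pos hC₃0 hC₀).le (mul_pos hC₁0 hC₀).le (mul_pos hC₁0 hCb).le
    (mul_pos two_pos hC₂0).le (by positivity) (by positivity) (by positivity) (by positivity)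
    (hM1b.trans (le_of_eq (by ring))) (hM2b.trans (le_of_eq (by ring)))
    (hBdb.trans (le_of_eq (by ring))) (hPrb.trans (le_of_eq (by ring))) hGdb
  refine hfin.trans (le_of_eq ?_)
  ring

end Pool.Agent.Y77.D

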